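import Pool.Agent.Wsp.Sim

/-!
# Partition of a wheel-free graph into parts of prescribed clique numbers (MP_e2a513_co)
-/

set_option autoImplicit false

namespace Wsp

open Wdf Wtb

variable {V : Type}

/-- colour classes of a partial colouring, each coloured with `b` colours -/
lemma fib {G : SimpleGraph V} {L : Set V} {a b : ℕ} (g : V → ℕ) (hg : ∀ x ∈ L, g x < a)
    (h : ∀ i < a, Col G {x | x ∈ L ∧ g x = i} b) : Col G L (a * b) := by
  choose! f h1 h2 using h
  refine ⟨fun x => g x * b + f (g x) x, ?_, ?_⟩
  · intro x hx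
    have h3 := h1 (g x) (hg x hx) x ⟨hx, rfl⟩
    have h4 : (g x + 1) * b ≤ a * b := Nat.mul_le_mul_right b (hg x hx)
    rw [Nat.succ_mul] at h4
    change g x * b + f (g x) x < a * b
    omega
  · intro x hx y hy hxy he
    have he' : g x * b + f (g x) x = g y * b + f (g y) y := he
    have h3 := h1 (g x) (hg x hx) x ⟨hx, rfl⟩
    have h4 := h1 (g y) (hg y hy) y ⟨hy, rfl⟩
    have hgg : g x = g y := by
      rcases lt_trichotomy (g x) (g y) with h5 | h5 | h5
      · have h6 : (g x + 1) * b ≤ g y * b := Nat.mul_le_mul_right b h5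
        rw [Nat.succ_mul] at h6
        omega
      · exact h5
      · have h6 : (g y + 1) * b ≤ g x * b := Nat.mul_le_mul_right b h5
        rw [Nat.succ_mul] at h6
        omega
    rw [← hgg] at he' h4
    exact h2 (g x) (hg x hx) x ⟨hx, rfl⟩ y ⟨hy, hgg.symm⟩ hxy (by omega)

/-- THEOREM H: parts `0, .., q - 1` with cliques of at most `s i` vertices -/
lemma cel [Finite V] {G : SimpleGraph V} (hG : ¬ Whl.HasWheel G) {w q : ℕ}
    (hw : G.CliqueFree (w + 1)) (hq : 0 < q) (s : Fin q → ℕ) (hs : ∀ i, 2 ≤ s i)
    (hsum : w ≤ ∑ i, s i) (k : ℕ) : ∀ S : Set V, S.ncard ≤ k →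
      ∃ g : V → Fin q, ∀ T : Finset V, (∀ x ∈ T, x ∈ S) →
        (∀ x ∈ T, ∀ y ∈ T, x ≠ y → G.Adj x y) → ∀ i, (∀ x ∈ T, g x = i) → T.card ≤ s i := by
  classical
  induction k with
  | zero =>
    intro S hS
    have h0 : S = ∅ := by
      rw [← Set.ncard_eq_zero (Set.toFinite S)]
      omega
    subst h0
    refine ⟨fun _ => ⟨0, hq⟩, fun T hT _ i _ => ?_⟩
    rcases T.eq_empty_or_nonempty with h | ⟨x, hx⟩
    · rw [h, Finset.card_empty]
      omega
    · exact (hT x hx).elim
  | succ k ih =>
    intro S hS
    by_cases hE : ∃ a ∈ S, ∃ b ∈ S, G.Adj a b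
    · obtain ⟨a, ha, b, hb, hab⟩ := hE
      obtain ⟨v, hv, K, hKS, hK1, hK2, hK3⟩ := special hG ha hb hab
      have hlt : (S \ {v}).ncard < S.ncard := by
        refine Set.ncard_lt_ncard ?_ (Set.toFinite S)
        refine lt_of_le_of_ne Set.sdiff_subset ?_
        intro he
        have : v ∈ S \ {v} := by
          rw [he]
          exact hv
        exact this.2 rfl
      obtain ⟨g, h2⟩ := ih (S \ {v}) (by omega)
      have hKc : K.ncard + 1 ≤ w := clq_lt hw (z := v) hK2 hK1
      have hfin : K.Finite := Set.toFinite _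
      -- a colour `c` which occurs less than `s c` times in `K`
      obtain ⟨c, hc⟩ : ∃ c : Fin q, ({u ∈ hfin.toFinset | g u = c} : Finset V).card < s c := by
        by_contra hno
        push Not at hno
        have h3 : hfin.toFinset.card =
            ∑ c : Fin q, ({u ∈ hfin.toFinset | g u = c} : Finset V).card :=
          Finset.card_eq_sum_card_fiberwise (fun _ _ => Finset.mem_univ _)
        have h4 : ∑ c, s c ≤ ∑ c : Fin q, ({u ∈ hfin.toFinset | g u = c} : Finset V).card :=
          Finset.sum_le_sum (fun c _ => hno c)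
        rw [Set.ncard_eq_toFinset_card _ hfin] at hKc
        omega
      refine ⟨fun x => if x = v then c else g x, ?_⟩
      intro T hT hTc i hTi
      by_cases hvT : v ∈ T
      · have hic : c = i := by
          have := hTi v hvT
          simpa using this
        subst hic
        by_contra hlt'
        push Not at hlt'
        have h2s := hs c
        have hsub : T.erase v ⊆ ({u ∈ hfin.toFinset | g u = c} : Finset V) := by
          intro x hx
          rw [Finset.mem_erase] at hx
          obtain ⟨hxv, hxT⟩ := hx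
          obtain ⟨y, hy, hyx, hyv⟩ : ∃ y ∈ T, y ≠ x ∧ y ≠ v := by
            have h4 : 1 ≤ ((T.erase x).erase v).card := by
              have h5 := Finset.pred_card_le_card_erase (a := x) (s := T)
              have h6 := Finset.pred_card_le_card_erase (a := v) (s := T.erase x)
              omega
            obtain ⟨y, hy⟩ := Finset.card_pos.1 h4
            rw [Finset.mem_erase, Finset.mem_erase] at hy
            exact ⟨y, hy.2.2, hy.2.1, hy.1⟩
          rw [Finset.mem_filter, Set.Finite.mem_toFinset]
          refine ⟨hK3 x (hT x hxT) y (hT y hy) (hTc v hvT x hxT (Ne.symm hxv))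
            (hTc v hvT y hy hyv.symm) (hTc x hxT y hy hyx.symm), ?_⟩
          have h7 := hTi x hxT
          simpa only [hxv, if_false] using h7
        have h8 := Finset.card_le_card hsub
        have h9 := Finset.card_erase_of_mem hvT
        omega
      · refine h2 T (fun x hx => ⟨hT x hx, fun he => hvT (he ▸ hx)⟩) hTc i (fun x hx => ?_)
        have hxv : x ≠ v := fun he => hvT (he ▸ hx)
        have h3 := hTi x hx
        simpa only [hxv, if_false] using h3
    · refine ⟨fun _ => ⟨0, hq⟩, fun T hT hTc i _ => ?_⟩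
      have h2s := hs i
      by_contra hlt'
      push Not at hlt'
      obtain ⟨x, hx, y, hy, hxy⟩ := Finset.one_lt_card.1 (show 1 < T.card by omega)
      exact hE ⟨x, hT x hx, y, hT y hy, hTc x hx y hy hxy⟩

end Wsp
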