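import Pool.Agent.Wsp.Ext

/-!
# In every component outside the closed neighbourhood of a vertex there is a vertex whose
neighbourhood is a clique and a stable set (MP_e2a513_co)
-/

set_option autoImplicit false

namespace Wsp

open Wdf Wtb

variable {V : Type}

/-- LEMMA E for an induced path which cannot be prolonged at its first vertex -/
lemma endp2 {G : SimpleGraph V} (hG : ¬ Whl.HasWheel G) {n : ℕ} {f : ℕ → V} (hf : IP G n f)
    (hmax : ∀ x, IP G (n + 1) (fun i => Nat.casesOn i x f) → False) :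
    ∀ x y, G.Adj (f 0) x → G.Adj (f 0) y → G.Adj x y → x = f 1 ∨ G.Adj (f 1) x := by
  classical
  have key : ∀ x, G.Adj (f 0) x → x ≠ f 1 → ¬ G.Adj (f 1) x →
      (∀ i ≤ n, x ≠ f i) ∧ ∃ i, 2 ≤ i ∧ i ≤ n ∧ G.Adj x (f i) ∧
        ∀ j, 1 ≤ j → j < i → ¬ G.Adj x (f j) := by
    intro x h1 h2 h3
    have hne : ∀ i ≤ n, x ≠ f i := by
      intro i hi he
      rcases Nat.eq_zero_or_pos i with h0 | h0
      · subst h0
        exact h1.ne he.symm
      · rw [he] at h1 h2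
        have := (hf 0 i h0 hi).2.1 h1
        subst this
        exact h2 rfl
    refine ⟨hne, ?_⟩
    have hex : ∃ i, 1 ≤ i ∧ i ≤ n ∧ G.Adj x (f i) := by
      by_contra hc
      push Not at hc
      refine hmax x (hf.cons ?_)
      intro i hi
      refine ⟨hne i hi, ?_, ?_⟩
      · intro h
        by_contra h0
        exact hc i (by omega) hi h
      · intro h
        subst h
        exact h1.symm
    obtain ⟨h4, h5, h6⟩ := Nat.find_spec hex
    refine ⟨Nat.find hex, ?_, h5, h6, ?_⟩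
    · by_contra hlt
      have : Nat.find hex = 1 := by omega
      rw [this] at h6
      exact h3 h6.symm
    · intro j hj1 hj2 hj3
      exact Nat.find_min hex hj2 ⟨hj1, by omega, hj3⟩
  -- a hole through `f 0, .., f j` and `y`, and a hub `x`
  have main : ∀ x y, G.Adj (f 0) x → G.Adj (f 0) y → G.Adj x y →
      (∀ i ≤ n, x ≠ f i) → (∀ i ≤ n, y ≠ f i) → ∀ i j, 1 ≤ i → i ≤ j → 2 ≤ j → j ≤ n →
      G.Adj x (f i) → G.Adj y (f j) → (∀ k, 1 ≤ k → k < j → ¬ G.Adj y (f k)) → False := by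
    intro x y h1 h2 hxy h3 h4 i j hi hij hj2 hj h5 h6 h7
    refine hG ((take hf hj).wheel (x := y) (z := x) hj2 ?_ hxy
      (fun k hk => h3 k (hk.trans hj)) (i := 0) (j := i) (by omega) hij (by omega) h1.symm h5)
    intro k hk
    refine ⟨(h4 k (hk.trans hj)).symm, ?_, ?_⟩
    · intro h
      by_contra hc
      push Not at hc
      exact h7 k (by omega) (by omega) h.symm
    · rintro (h | h)
      · subst h
        exact h2
      · subst h
        exact h6.symm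
  intro x y h1 h2 hxy
  by_contra hcon
  push Not at hcon
  obtain ⟨h3, h5⟩ := hcon
  obtain ⟨a1, i, a2, a3, a4, a5⟩ := key x h1 h3 h5
  have hyq : y ≠ f 1 := fun he => h5 (he ▸ hxy.symm)
  by_cases h6 : G.Adj (f 1) y
  · -- `y` sees `x`, `f 0`, `f 1`
    have hyn : ∀ k ≤ n, y ≠ f k := by
      intro k hk he
      rcases Nat.eq_zero_or_pos k with h0 | h0
      · subst h0
        exact h2.ne he.symm
      · rw [he] at h2 hyq
        have := (hf 0 k h0 hk).2.1 h2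
        subst this
        exact hyq rfl
    exact main y x h2 h1 hxy.symm hyn a1 1 i le_rfl (by omega) a2 a3 h6.symm a4 a5
  · obtain ⟨b1, j, b2, b3, b4, b5⟩ := key y h2 hyq h6
    rcases le_total i j with h | h
    · exact main x y h1 h2 hxy a1 b1 i j (by omega) h b2 b3 a4 b4 b5
    · exact main y x h2 h1 hxy.symm b1 a1 j i (by omega) h a2 a3 b4 a4 a5

/-- THEOREM G for an induced path which ends in a given vertex `f n`, starts in a set `C` that is
closed under adjacency outside the neighbourhood of `f n`, and is longest with this property: its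
first vertex is replaced by a vertex `z` of `C` which lies in at most one large clique -/
lemma special2 [Finite V] {G : SimpleGraph V} (hG : ¬ Whl.HasWheel G) {C : Set V} {n : ℕ}
    {f : ℕ → V} (hn2 : 2 ≤ n) (hf : IP G n f) (h0C : f 0 ∈ C)
    (hC : ∀ x ∈ C, ∀ y, G.Adj x y → y ≠ f n → ¬ G.Adj (f n) y → y ∈ C)
    (hmax : ∀ g, IP G (n + 1) g → g (n + 1) = f n → g 0 ∈ C → False) :
    ∃ z ∈ C, ∃ K : Set V, (∀ x ∈ K, G.Adj z x) ∧ (∀ x ∈ K, ∀ y ∈ K, x ≠ y → G.Adj x y) ∧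
      ∀ x y, G.Adj z x → G.Adj z y → G.Adj x y → x ∈ K := by
  classical
  have hn : 1 ≤ n := by omega
  obtain ⟨S, hSu⟩ : ∃ S : Set V, S = Set.univ := ⟨_, rfl⟩
  have hS : ∀ x : V, x ∈ S := fun x => hSu ▸ trivial
  have hfS : ∀ i ≤ n, f i ∈ S := fun i _ => hS _
  obtain ⟨R, hR⟩ : ∃ R : Set V, R = {x | ∃ i, 2 ≤ i ∧ i ≤ n ∧ x = f i} := ⟨_, rfl⟩
  have hRc : Conn G R := hR ▸ conn_path hf
  have hRm : ∀ x, x ∈ R ↔ ∃ i, 2 ≤ i ∧ i ≤ n ∧ x = f i := by
    intro x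
    rw [hR]
    rfl
  have hq0 : G.Adj (f 0) (f 1) := (hf 0 1 (by omega) hn).2.2 rfl
  have hqR : f 1 ∉ R := by
    intro h
    obtain ⟨i, h1, h2, h3⟩ := (hRm _).1 h
    exact (hf 1 i (by omega) h2).1 h3
  obtain ⟨E, hE⟩ : ∃ E : Set V, E = {x | x ∈ S ∧ G.Adj (f 1) x ∧ x ∉ R ∧
      ∀ u ∈ R, ¬ G.Adj x u} := ⟨_, rfl⟩
  have hEm : ∀ x, x ∈ E ↔ x ∈ S ∧ G.Adj (f 1) x ∧ x ∉ R ∧ ∀ u ∈ R, ¬ G.Adj x u := by
    intro x
    rw [hE]
    rfl
  have h0E : f 0 ∈ E := by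
    refine (hEm _).2 ⟨hfS 0 (by omega), hq0.symm, ?_, ?_⟩
    · intro h
      obtain ⟨i, h1, h2, h3⟩ := (hRm _).1 h
      exact (hf 0 i (by omega) h2).1 h3
    · intro u hu hadj
      obtain ⟨i, h1, h2, h3⟩ := (hRm _).1 hu
      rw [h3] at hadj
      have := (hf 0 i (by omega) h2).2.1 hadj
      omega
  obtain ⟨D, d1, d2, d3, d4⟩ := comp_mem (G := G) (S := E) (d := f 0) h0E
  have hDE : ∀ x ∈ D, x ∈ S ∧ G.Adj (f 1) x ∧ x ∉ R ∧ ∀ u ∈ R, ¬ G.Adj x u :=
    fun x hx => (hEm x).1 (d1 hx)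
  obtain ⟨N, hN⟩ : ∃ N : Set V, N = {x | x ∈ S ∧ G.Adj (f 1) x ∧ x ∉ E ∧ ∃ u ∈ D, G.Adj x u} :=
    ⟨_, rfl⟩
  have hNm : ∀ x, x ∈ N ↔ x ∈ S ∧ G.Adj (f 1) x ∧ x ∉ E ∧ ∃ u ∈ D, G.Adj x u := by
    intro x
    rw [hN]
    rfl
  have hNR : ∀ x ∈ N, x ∉ R ∧ ∃ u ∈ R, G.Adj x u := by
    intro x hx
    obtain ⟨x1, x2, x3, u, hu, hxu⟩ := (hNm x).1 hx
    have hxR : x ∉ R := fun h => (hDE u hu).2.2.2 x h hxu.symm
    refine ⟨hxR, ?_⟩
    by_contra hc
    push Not at hc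
    exact x3 ((hEm x).2 ⟨x1, x2, hxR, hc⟩)
  have hND : ∀ x ∈ N, x ∉ D := fun x hx h => ((hNm x).1 hx).2.2.1 (d1 h)
  have hclq : ∀ x ∈ N, ∀ y ∈ N, x ≠ y → G.Adj x y := by
    intro x hx y hy hxy
    by_contra hno
    obtain ⟨x1, x2, x3, x4⟩ := (hNm x).1 hx
    obtain ⟨y1, y2, y3, y4⟩ := (hNm y).1 hy
    obtain ⟨x5, x6⟩ := hNR x hx
    obtain ⟨y5, y6⟩ := hNR y hy
    obtain ⟨n1, g1, m1, ip1, g10, g1n, g1i⟩ := upper' d2 (hND x hx) (hND y hy) hxy x4 y4
    obtain ⟨n2, g2, m2, ip2, g20, g2n, g2i⟩ := upper' hRc x5 y5 hxy x6 y6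
    have two : ∀ {m : ℕ} {g : ℕ → V}, 1 ≤ m → IP G m g → g 0 = x → g m = y → 2 ≤ m := by
      intro m g hm ip e0 en
      by_contra hlt
      have : m = 1 := by omega
      subst this
      have := (ip 0 1 (by omega) le_rfl).2.2 rfl
      rw [e0, en] at this
      exact hno this
    have t1 := two m1 ip1 g10 g1n
    have t2 := two m2 ip2 g20 g2n
    obtain ⟨k1, rfl⟩ : ∃ k1, n1 = k1 + 1 := ⟨n1 - 1, by omega⟩
    obtain ⟨k2, rfl⟩ : ∃ k2, n2 = k2 + 1 := ⟨n2 - 1, by omega⟩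
    have hg1 : ∀ j, j ≤ k1 → (j + 1 = k1 + 1 ∧ g1 (j + 1) = y) ∨
        (j + 1 < k1 + 1 ∧ g1 (j + 1) ∈ D) := by
      intro j hj
      by_cases h : j + 1 = k1 + 1
      · exact Or.inl ⟨h, by rw [h]; exact g1n⟩
      · exact Or.inr ⟨by omega, g1i _ (by omega) (by omega)⟩
    have hD1 : ∀ u ∈ D, G.Adj (f 1) u := fun u hu => (hDE u hu).2.1
    refine hG (rimw (n := k2) (k := k1) (f := fun i => g2 (k2 + 1 - (i + 1)))
      (g := fun i => g1 (i + 1)) (by omega) (by omega) (tail (rev ip2)) (tail ip1) ?_ (z := f 1)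
      ?_ ?_ (j1 := 0) (j2 := k1) (by omega) le_rfl (by omega) ?_ ?_ (Or.inl ⟨k2, le_rfl, ?_⟩))
    · intro i hi j hj
      by_cases hik : i = k2
      · subst hik
        rw [Nat.sub_self, g20, ← g10]
        obtain ⟨b1, b2⟩ := ip1 0 (j + 1) (by omega) (by omega)
        refine ⟨b1, ?_⟩
        rw [b2]
        omega
      · have hin : g2 (k2 + 1 - (i + 1)) ∈ R := g2i _ (by omega) (by omega)
        rcases hg1 j hj with ⟨hj1, hj2⟩ | ⟨hj1, hj2⟩
        · rw [hj2, ← g2n]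
          obtain ⟨b1, b2⟩ := ip2 (k2 + 1 - (i + 1)) (k2 + 1) (by omega) le_rfl
          refine ⟨b1, ?_⟩
          rw [b2]
          omega
        · refine ⟨fun he => (hDE _ hj2).2.2.1 (he ▸ hin), fun h =>
            absurd h.symm ((hDE _ hj2).2.2.2 _ hin), fun h => by omega⟩
    · intro i hi
      by_cases hik : i = k2
      · subst hik
        rw [Nat.sub_self, g20]
        exact x2.ne
      · intro he
        exact hqR (he ▸ g2i _ (by omega) (by omega))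
    · intro j hj
      rcases hg1 j hj with ⟨_, hj2⟩ | ⟨_, hj2⟩
      · rw [hj2]
        exact y2.ne
      · exact (hD1 _ hj2).ne
    · rcases hg1 0 (by omega) with ⟨_, hj2⟩ | ⟨_, hj2⟩
      · rw [hj2]
        exact y2
      · exact hD1 _ hj2
    · rw [g1n]
      exact y2
    · rw [Nat.sub_self, g20]
      exact x2
  have hTq : ∀ x ∈ D ∪ N, G.Adj (f 1) x := by
    rintro x (hx | hx)
    · exact (hDE x hx).2.1
    · exact ((hNm x).1 hx).2.1
  -- a simplicial vertex of `D ∪ N` in `D`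
  obtain ⟨z, hz, hzz⟩ : ∃ z ∈ D, ∀ x ∈ D ∪ N, ∀ y ∈ D ∪ N, x ≠ y → G.Adj z x → G.Adj z y →
      G.Adj x y := by
    by_cases hcase : ∃ n ∈ N, ∃ y ∈ D ∪ N, y ≠ n ∧ ¬ G.Adj n y
    · obtain ⟨n, hn, y, hy, hyn, hny⟩ := hcase
      obtain ⟨z, hz, hzn, hnz, hzz⟩ := simpl hG _ (D ∪ N) le_rfl hTq n (Or.inr hn) y hy hyn hny
      refine ⟨z, ?_, hzz⟩
      rcases hz with hz | hz
      · exact hz
      · exact absurd (hclq n hn z hz hzn.symm) hnz
    · push Not at hcase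
      by_cases hc : ∃ x ∈ D ∪ N, ∃ y ∈ D ∪ N, y ≠ x ∧ ¬ G.Adj x y
      · obtain ⟨x, hx, y, hy, hyx, hxy⟩ := hc
        obtain ⟨z, hz, hzx, hxz, hzz⟩ := simpl hG _ (D ∪ N) le_rfl hTq x hx y hy hyx hxy
        refine ⟨z, ?_, hzz⟩
        rcases hz with hz | hz
        · exact hz
        · exact absurd (hcase z hz x hx hzx.symm).symm hxz
      · push Not at hc
        exact ⟨f 0, d3, fun x hx y hy hxy _ _ => hc x hx y hy hxy.symm⟩
  obtain ⟨z1, z2, z3, z4⟩ := hDE z hz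
  have hnb : ∀ x ∈ S, G.Adj (f 1) x → G.Adj z x → x ∈ D ∪ N := by
    intro x hx hqx hzx
    by_cases hxE : x ∈ E
    · exact Or.inl (d4 z hz x hxE hzx)
    · exact Or.inr ((hNm x).2 ⟨hx, hqx, hxE, z, hz, hzx.symm⟩)
  -- the path with `z` in place of its first vertex
  have hf' : IP G n (fun i => if i = 0 then z else f i) := by
    intro i j hij hj
    have hj0 : j ≠ 0 := by omega
    by_cases hi0 : i = 0
    · simp only [hi0, hj0, if_true, if_false]
      by_cases hj1 : j = 1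
      · subst hj1
        exact ⟨z2.ne.symm, fun _ => rfl, fun _ => z2.symm⟩
      · have hjR : f j ∈ R := (hRm _).2 ⟨j, by omega, hj, rfl⟩
        exact ⟨fun he => z3 (he ▸ hjR), fun h => absurd h (z4 _ hjR), fun h => by omega⟩
    · simp only [hi0, hj0, if_false]
      exact hf i j hij hj
  -- `D` lies in `C`
  have hfn : f n ∈ R := (hRm _).2 ⟨n, hn2, le_rfl, rfl⟩
  have hzC : z ∈ C := by
    have h1 : D ∩ C = D := by
      refine d2 (D ∩ C) Set.inter_subset_left ⟨f 0, d3, h0C⟩ ?_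
      intro x hx y hy hxy
      refine ⟨hy, hC x hx.2 y hxy ?_ ?_⟩
      · intro he
        exact (hDE y hy).2.2.1 (he ▸ hfn)
      · intro h
        exact (hDE y hy).2.2.2 _ hfn h.symm
    rw [← h1] at hz
    exact hz.2
  have hend := endp2 hG hf' (by
    intro x hx
    refine hmax _ hx ?_ ?_
    · show (if n = 0 then z else f n) = f n
      rw [if_neg (by omega)]
    · show x ∈ C
      have e1 := hx 0 (n + 1) (by omega) le_rfl
      have e2 := hx 0 1 (by omega) (by omega)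
      have e3 : x ≠ (if n = 0 then z else f n) ∧ (G.Adj x (if n = 0 then z else f n) ↔
        n + 1 = 0 + 1) := e1
      rw [if_neg (show n ≠ 0 by omega)] at e3
      have e4 : G.Adj x z := e2.2.2 rfl
      refine hC z hzC x e4.symm e3.1 ?_
      intro h
      have := e3.2.1 h.symm
      omega)
  simp only [if_true, one_ne_zero, if_false] at hend
  refine ⟨z, hzC, {x | G.Adj z x ∧ (x = f 1 ∨ G.Adj (f 1) x)}, fun x hx => hx.1, ?_, ?_⟩
  · rintro x ⟨x2, x3⟩ y ⟨y2, y3⟩ hxy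
    rcases x3 with x3 | x3
    · rcases y3 with y3 | y3
      · exact absurd (x3.trans y3.symm) hxy
      · rw [x3]
        exact y3
    · rcases y3 with y3 | y3
      · rw [y3]
        exact x3.symm
      · exact hzz x (hnb x (hS x) x3 x2) y (hnb y (hS y) y3 y2) hxy x2 y2
  · intro x y h1 h2 h3
    exact ⟨h1, hend x y h1 h2 h3⟩


/-- an induced path with two edges at least, first vertex in `C`, last vertex `v` can be taken
longest -/
lemma longest3 [Finite V] {G : SimpleGraph V} {C : Set V} {n : ℕ} {f : ℕ → V} (hn : 2 ≤ n)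
    (hf : IP G n f) (h0 : f 0 ∈ C) : ∃ (m : ℕ) (g : ℕ → V), 2 ≤ m ∧ IP G m g ∧ g m = f n ∧
      g 0 ∈ C ∧ ∀ g', IP G (m + 1) g' → g' (m + 1) = g m → g' 0 ∈ C → False := by
  by_contra hc
  push Not at hc
  have key : ∀ k, ∃ g, IP G (n + k) g ∧ g (n + k) = f n ∧ g 0 ∈ C := by
    intro k
    induction k with
    | zero => exact ⟨f, hf, rfl, h0⟩
    | succ k ih =>
      obtain ⟨g, g1, g2, g3⟩ := ih
      obtain ⟨g', h1, h2, h3, _⟩ := hc (n + k) g (by omega) g1 g2 g3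
      exact ⟨g', h1, h2.trans g2, h3⟩
  obtain ⟨g, g1, _⟩ := key (Nat.card V)
  have := lt_card g1
  omega

/-- THEOREM G, prescribed vertex `v` and component outside its closed neighbourhood -/
lemma dirac2 [Finite V] {G : SimpleGraph V} (hG : ¬ Whl.HasWheel G) {u v : V} (huv : u ≠ v)
    (huv' : ¬ G.Adj v u) : ∃ z : V,
      Relation.ReflTransGen (fun x y => G.Adj x y ∧ y ≠ v ∧ ¬ G.Adj v y) u z ∧
      ∃ K : Set V, (∀ x ∈ K, G.Adj z x) ∧ (∀ x ∈ K, ∀ y ∈ K, x ≠ y → G.Adj x y) ∧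
        ∀ x y, G.Adj z x → G.Adj z y → G.Adj x y → x ∈ K := by
  classical
  obtain ⟨C, hCd⟩ : ∃ C : Set V, C = {z | Relation.ReflTransGen
      (fun x y => G.Adj x y ∧ y ≠ v ∧ ¬ G.Adj v y) u z} := ⟨_, rfl⟩
  have hCm : ∀ z, z ∈ C ↔ Relation.ReflTransGen
      (fun x y => G.Adj x y ∧ y ≠ v ∧ ¬ G.Adj v y) u z := by
    intro z
    rw [hCd]
    rfl
  have huC : u ∈ C := (hCm u).2 Relation.ReflTransGen.refl
  have hcl : ∀ x ∈ C, ∀ y, G.Adj x y → y ≠ v → ¬ G.Adj v y → y ∈ C :=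
    fun x hx y h1 h2 h3 => (hCm y).2 (((hCm x).1 hx).tail ⟨h1, h2, h3⟩)
  have hCv : ∀ x ∈ C, x ≠ v ∧ ¬ G.Adj v x := by
    intro x hx
    rcases Relation.ReflTransGen.cases_tail ((hCm x).1 hx) with h | ⟨y, _, h⟩
    · rw [h]
      exact ⟨huv, huv'⟩
    · exact h.2
  have path3 : ∀ a b c : V, G.Adj a b → G.Adj b c → a ≠ c → ¬ G.Adj a c →
      IP G 2 (fun i => if i = 0 then a else if i = 1 then b else c) := by
    intro a b c hab hbc hac hac' i j hij hj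
    have : (i = 0 ∧ j = 1) ∨ (i = 0 ∧ j = 2) ∨ (i = 1 ∧ j = 2) := by omega
    rcases this with ⟨rfl, rfl⟩ | ⟨rfl, rfl⟩ | ⟨rfl, rfl⟩
    · simpa using ⟨hab.ne, hab⟩
    · simpa using ⟨hac, hac'⟩
    · simpa using ⟨hbc.ne, hbc⟩
  suffices h : ∃ z ∈ C, ∃ K : Set V, (∀ x ∈ K, G.Adj z x) ∧
      (∀ x ∈ K, ∀ y ∈ K, x ≠ y → G.Adj x y) ∧
      ∀ x y, G.Adj z x → G.Adj z y → G.Adj x y → x ∈ K by
    obtain ⟨z, hz, h⟩ := h
    exact ⟨z, (hCm z).1 hz, h⟩
  by_cases hcase : ∃ c ∈ C, ∃ w, G.Adj c w ∧ G.Adj v w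
  · obtain ⟨c, hc, w, h1, h2⟩ := hcase
    obtain ⟨c1, c2⟩ := hCv c hc
    obtain ⟨m, g, m1, m2, m3, m4, m5⟩ := longest3 (C := C) le_rfl
      (path3 c w v h1 h2.symm c1 (fun h => c2 h.symm)) (by simpa using hc)
    have m3' : g m = v := by simpa using m3
    exact special2 hG m1 m2 m4 (by rw [m3']; exact hcl) m5
  · push Not at hcase
    have hcl' : ∀ x ∈ C, ∀ y, G.Adj x y → y ∈ C := by
      intro x hx y hxy
      refine hcl x hx y hxy ?_ (hcase x hx y hxy)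
      rintro rfl
      exact (hCv x hx).2 hxy.symm
    by_cases hP : ∃ b c : V, G.Adj u b ∧ G.Adj b c ∧ u ≠ c ∧ ¬ G.Adj u c
    · obtain ⟨b, c, h1, h2, h3, h4⟩ := hP
      obtain ⟨m, g, m1, m2, m3, m4, m5⟩ := longest3 (C := C) le_rfl
        (path3 u b c h1 h2 h3 h4) (by simpa using huC)
      exact special2 hG m1 m2 m4 (fun x hx y hxy _ _ => hcl' x hx y hxy) m5
    · by_cases hQ : ∃ x y : V, G.Adj u x ∧ G.Adj u y ∧ x ≠ y ∧ ¬ G.Adj x y
      · obtain ⟨x, y, h1, h2, h3, h4⟩ := hQ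
        obtain ⟨m, g, m1, m2, m3, m4, m5⟩ := longest3 (C := C) le_rfl
          (path3 x u y h1.symm h2 h3 h4) (by simpa using hcl' u huC x h1)
        exact special2 hG m1 m2 m4 (fun x hx y hxy _ _ => hcl' x hx y hxy) m5
      · push Not at hQ
        exact ⟨u, huC, {x | G.Adj u x}, fun x hx => hx, fun x hx y hy hxy => hQ x y hx hy hxy,
          fun x y hx _ _ => hx⟩

end Wsp
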