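import Pool.Agent.Wdf.Cyc

/-!
# The ends of longest induced paths of a wheel-free graph (MP_e2a513_co)
-/

set_option autoImplicit false

namespace Wsp

open Wdf Wtb

variable {V : Type}

lemma take {G : SimpleGraph V} {n m : ℕ} {f : ℕ → V} (h : IP G n f) (hm : m ≤ n) : IP G m f :=
  fun i j hij hj => h i j hij (hj.trans hm)

lemma lt_card [Finite V] {G : SimpleGraph V} {n : ℕ} {f : ℕ → V} (h : IP G n f) :
    n < Nat.card V := by
  have hinj : Function.Injective (fun i : Fin (n + 1) => f i) := by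
    intro i j hij
    have hij' : f i = f j := hij
    rcases lt_trichotomy (i : ℕ) (j : ℕ) with h1 | h1 | h1
    · exact absurd hij' (h i j h1 (by omega)).1
    · exact Fin.ext h1
    · exact absurd hij'.symm (h j i h1 (by omega)).1
  have h1 := Nat.card_le_card_of_injective _ hinj
  rw [Nat.card_eq_fintype_card, Fintype.card_fin] at h1
  omega

/-- a longest induced path inside `S` -/
lemma longest [Finite V] {G : SimpleGraph V} {S : Set V} {a b : V} (ha : a ∈ S) (hb : b ∈ S)
    (hab : G.Adj a b) : ∃ (n : ℕ) (f : ℕ → V), 1 ≤ n ∧ IP G n f ∧ (∀ i ≤ n, f i ∈ S) ∧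
      ∀ g, IP G (n + 1) g → (∀ i ≤ n + 1, g i ∈ S) → False := by
  by_contra hc
  push Not at hc
  have key : ∀ n, ∃ f, IP G (n + 1) f ∧ ∀ i ≤ n + 1, f i ∈ S := by
    intro n
    induction n with
    | zero =>
      refine ⟨fun i => if i = 0 then a else b, ?_, ?_⟩
      · intro i j hij hj
        have : i = 0 ∧ j = 1 := by omega
        obtain ⟨rfl, rfl⟩ := this
        simpa using ⟨hab.ne, hab⟩
      · intro i hi
        by_cases h : i = 0
        · simp only [h, if_true]
          exact ha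
        · simp only [h, if_false]
          exact hb
    | succ n ih =>
      obtain ⟨f, h1, h2⟩ := ih
      obtain ⟨g, h3, h4, _⟩ := hc (n + 1) f (by omega) h1 h2
      exact ⟨g, h3, h4⟩
  obtain ⟨f, h1, _⟩ := key (Nat.card V)
  have := (lt_card h1)
  omega

/-- LEMMA E: the first vertex `f 0` of a longest induced path and the next vertex `f 1`: every
triangle at `f 0` has its other vertices in the closed neighbourhood of `f 1` -/
lemma endp {G : SimpleGraph V} (hG : ¬ Whl.HasWheel G) {S : Set V} {n : ℕ} {f : ℕ → V}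
    (hf : IP G n f) (hfS : ∀ i ≤ n, f i ∈ S)
    (hmax : ∀ g, IP G (n + 1) g → (∀ i ≤ n + 1, g i ∈ S) → False) :
    ∀ x ∈ S, ∀ y ∈ S, G.Adj (f 0) x → G.Adj (f 0) y → G.Adj x y → x = f 1 ∨ G.Adj (f 1) x := by
  classical
  have key : ∀ x ∈ S, G.Adj (f 0) x → x ≠ f 1 → ¬ G.Adj (f 1) x →
      (∀ i ≤ n, x ≠ f i) ∧ ∃ i, 2 ≤ i ∧ i ≤ n ∧ G.Adj x (f i) ∧
        ∀ j, 1 ≤ j → j < i → ¬ G.Adj x (f j) := by
    intro x hx h1 h2 h3
    have hne : ∀ i ≤ n, x ≠ f i := by
      intro i hi he
      rcases Nat.eq_zero_or_pos i with h0 | h0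
      · subst h0
        exact h1.ne he.symm
      · rw [he] at h1 h2
        have := (hf 0 i h0 hi).2.1 h1
        subst this
        exact h2 rfl
    refine ⟨hne, ?_⟩
    have hex : ∃ i, 1 ≤ i ∧ i ≤ n ∧ G.Adj x (f i) := by
      by_contra hc
      push Not at hc
      refine hmax (fun i => Nat.casesOn i x f) (hf.cons ?_) ?_
      · intro i hi
        refine ⟨hne i hi, ?_, ?_⟩
        · intro h
          by_contra h0
          exact hc i (by omega) hi h
        · intro h
          subst h
          exact h1.symm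
      · intro i hi
        rcases i with _ | i
        · exact hx
        · exact hfS i (by omega)
    obtain ⟨h4, h5, h6⟩ := Nat.find_spec hex
    refine ⟨Nat.find hex, ?_, h5, h6, ?_⟩
    · by_contra hlt
      have : Nat.find hex = 1 := by omega
      rw [this] at h6
      exact h3 h6.symm
    · intro j hj1 hj2 hj3
      exact Nat.find_min hex hj2 ⟨hj1, by omega, hj3⟩
  -- a hole through `f 0, .., f j` and `y`, and a hub `x`
  have main : ∀ x ∈ S, ∀ y ∈ S, G.Adj (f 0) x → G.Adj (f 0) y → G.Adj x y →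
      (∀ i ≤ n, x ≠ f i) → (∀ i ≤ n, y ≠ f i) → ∀ i j, 1 ≤ i → i ≤ j → 2 ≤ j → j ≤ n →
      G.Adj x (f i) → G.Adj y (f j) → (∀ k, 1 ≤ k → k < j → ¬ G.Adj y (f k)) → False := by
    intro x hx y hy h1 h2 hxy h3 h4 i j hi hij hj2 hj h5 h6 h7
    refine hG ((take hf hj).wheel (x := y) (z := x) hj2 ?_ hxy
      (fun k hk => h3 k (hk.trans hj)) (i := 0) (j := i) (by omega) hij (by omega) h1.symm h5)
    intro k hk
    refine ⟨(h4 k (hk.trans hj)).symm, ?_, ?_⟩
    · intro h
      by_contra hc
      push Not at hc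
      exact h7 k (by omega) (by omega) h.symm
    · rintro (h | h)
      · subst h
        exact h2
      · subst h
        exact h6.symm
  intro x hx y hy h1 h2 hxy
  by_contra hcon
  push Not at hcon
  obtain ⟨h3, h5⟩ := hcon
  obtain ⟨a1, i, a2, a3, a4, a5⟩ := key x hx h1 h3 h5
  have hyq : y ≠ f 1 := fun he => h5 (he ▸ hxy.symm)
  by_cases h6 : G.Adj (f 1) y
  · -- `y` sees `x`, `f 0`, `f 1`
    have hyn : ∀ k ≤ n, y ≠ f k := by
      intro k hk he
      rcases Nat.eq_zero_or_pos k with h0 | h0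
      · subst h0
        exact h2.ne he.symm
      · rw [he] at h2 hyq
        have := (hf 0 k h0 hk).2.1 h2
        subst this
        exact hyq rfl
    exact main y hy x hx h2 h1 hxy.symm hyn a1 1 i le_rfl (by omega) a2 a3 h6.symm a4 a5
  · obtain ⟨b1, j, b2, b3, b4, b5⟩ := key y hy h2 hyq h6
    rcases le_total i j with h | h
    · exact main x hx y hy h1 h2 hxy a1 b1 i j (by omega) h b2 b3 a4 b4 b5
    · exact main y hy x hx h2 h1 hxy.symm b1 a1 j i (by omega) h a2 a3 b4 a4 a5

end Wsp
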