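import Pool.Agent.Wsp.Sim

/-!
# Two nonadjacent vertices whose neighbourhoods are a clique and a stable set (MP_e2a513_co)
-/

set_option autoImplicit false

namespace Wsp

open Wdf Wtb

variable {V : Type}

/-- THEOREM G for a given longest induced path: its first vertex is replaced by a vertex `z` which
lies in at most one large clique -/
lemma special1 [Finite V] {G : SimpleGraph V} (hG : ¬ Whl.HasWheel G) {S : Set V} {n : ℕ}
    {f : ℕ → V} (hn : 1 ≤ n) (hf : IP G n f) (hfS : ∀ i ≤ n, f i ∈ S)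
    (hmax : ∀ g, IP G (n + 1) g → (∀ i ≤ n + 1, g i ∈ S) → False) :
    ∃ z ∈ S, IP G n (fun i => if i = 0 then z else f i) ∧ ∃ K ⊆ S, (∀ x ∈ K, G.Adj z x) ∧
      (∀ x ∈ K, ∀ y ∈ K, x ≠ y → G.Adj x y) ∧
      ∀ x ∈ S, ∀ y ∈ S, G.Adj z x → G.Adj z y → G.Adj x y → x ∈ K := by
  classical
  obtain ⟨R, hR⟩ : ∃ R : Set V, R = {x | ∃ i, 2 ≤ i ∧ i ≤ n ∧ x = f i} := ⟨_, rfl⟩
  have hRc : Conn G R := hR ▸ conn_path hf
  have hRm : ∀ x, x ∈ R ↔ ∃ i, 2 ≤ i ∧ i ≤ n ∧ x = f i := by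
    intro x
    rw [hR]
    rfl
  have hq0 : G.Adj (f 0) (f 1) := (hf 0 1 (by omega) hn).2.2 rfl
  have hqR : f 1 ∉ R := by
    intro h
    obtain ⟨i, h1, h2, h3⟩ := (hRm _).1 h
    exact (hf 1 i (by omega) h2).1 h3
  obtain ⟨E, hE⟩ : ∃ E : Set V, E = {x | x ∈ S ∧ G.Adj (f 1) x ∧ x ∉ R ∧
      ∀ u ∈ R, ¬ G.Adj x u} := ⟨_, rfl⟩
  have hEm : ∀ x, x ∈ E ↔ x ∈ S ∧ G.Adj (f 1) x ∧ x ∉ R ∧ ∀ u ∈ R, ¬ G.Adj x u := by
    intro x
    rw [hE]
    rfl
  have h0E : f 0 ∈ E := by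
    refine (hEm _).2 ⟨hfS 0 (by omega), hq0.symm, ?_, ?_⟩
    · intro h
      obtain ⟨i, h1, h2, h3⟩ := (hRm _).1 h
      exact (hf 0 i (by omega) h2).1 h3
    · intro u hu hadj
      obtain ⟨i, h1, h2, h3⟩ := (hRm _).1 hu
      rw [h3] at hadj
      have := (hf 0 i (by omega) h2).2.1 hadj
      omega
  obtain ⟨D, d1, d2, d3, d4⟩ := comp_mem (G := G) (S := E) (d := f 0) h0E
  have hDE : ∀ x ∈ D, x ∈ S ∧ G.Adj (f 1) x ∧ x ∉ R ∧ ∀ u ∈ R, ¬ G.Adj x u :=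
    fun x hx => (hEm x).1 (d1 hx)
  obtain ⟨N, hN⟩ : ∃ N : Set V, N = {x | x ∈ S ∧ G.Adj (f 1) x ∧ x ∉ E ∧ ∃ u ∈ D, G.Adj x u} :=
    ⟨_, rfl⟩
  have hNm : ∀ x, x ∈ N ↔ x ∈ S ∧ G.Adj (f 1) x ∧ x ∉ E ∧ ∃ u ∈ D, G.Adj x u := by
    intro x
    rw [hN]
    rfl
  have hNR : ∀ x ∈ N, x ∉ R ∧ ∃ u ∈ R, G.Adj x u := by
    intro x hx
    obtain ⟨x1, x2, x3, u, hu, hxu⟩ := (hNm x).1 hx
    have hxR : x ∉ R := fun h => (hDE u hu).2.2.2 x h hxu.symm
    refine ⟨hxR, ?_⟩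
    by_contra hc
    push Not at hc
    exact x3 ((hEm x).2 ⟨x1, x2, hxR, hc⟩)
  have hND : ∀ x ∈ N, x ∉ D := fun x hx h => ((hNm x).1 hx).2.2.1 (d1 h)
  have hclq : ∀ x ∈ N, ∀ y ∈ N, x ≠ y → G.Adj x y := by
    intro x hx y hy hxy
    by_contra hno
    obtain ⟨x1, x2, x3, x4⟩ := (hNm x).1 hx
    obtain ⟨y1, y2, y3, y4⟩ := (hNm y).1 hy
    obtain ⟨x5, x6⟩ := hNR x hx
    obtain ⟨y5, y6⟩ := hNR y hy
    obtain ⟨n1, g1, m1, ip1, g10, g1n, g1i⟩ := upper' d2 (hND x hx) (hND y hy) hxy x4 y4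
    obtain ⟨n2, g2, m2, ip2, g20, g2n, g2i⟩ := upper' hRc x5 y5 hxy x6 y6
    have two : ∀ {m : ℕ} {g : ℕ → V}, 1 ≤ m → IP G m g → g 0 = x → g m = y → 2 ≤ m := by
      intro m g hm ip e0 en
      by_contra hlt
      have : m = 1 := by omega
      subst this
      have := (ip 0 1 (by omega) le_rfl).2.2 rfl
      rw [e0, en] at this
      exact hno this
    have t1 := two m1 ip1 g10 g1n
    have t2 := two m2 ip2 g20 g2n
    obtain ⟨k1, rfl⟩ : ∃ k1, n1 = k1 + 1 := ⟨n1 - 1, by omega⟩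
    obtain ⟨k2, rfl⟩ : ∃ k2, n2 = k2 + 1 := ⟨n2 - 1, by omega⟩
    have hg1 : ∀ j, j ≤ k1 → (j + 1 = k1 + 1 ∧ g1 (j + 1) = y) ∨
        (j + 1 < k1 + 1 ∧ g1 (j + 1) ∈ D) := by
      intro j hj
      by_cases h : j + 1 = k1 + 1
      · exact Or.inl ⟨h, by rw [h]; exact g1n⟩
      · exact Or.inr ⟨by omega, g1i _ (by omega) (by omega)⟩
    have hD1 : ∀ u ∈ D, G.Adj (f 1) u := fun u hu => (hDE u hu).2.1
    refine hG (rimw (n := k2) (k := k1) (f := fun i => g2 (k2 + 1 - (i + 1)))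
      (g := fun i => g1 (i + 1)) (by omega) (by omega) (tail (rev ip2)) (tail ip1) ?_ (z := f 1)
      ?_ ?_ (j1 := 0) (j2 := k1) (by omega) le_rfl (by omega) ?_ ?_ (Or.inl ⟨k2, le_rfl, ?_⟩))
    · intro i hi j hj
      by_cases hik : i = k2
      · subst hik
        rw [Nat.sub_self, g20, ← g10]
        obtain ⟨b1, b2⟩ := ip1 0 (j + 1) (by omega) (by omega)
        refine ⟨b1, ?_⟩
        rw [b2]
        omega
      · have hin : g2 (k2 + 1 - (i + 1)) ∈ R := g2i _ (by omega) (by omega)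
        rcases hg1 j hj with ⟨hj1, hj2⟩ | ⟨hj1, hj2⟩
        · rw [hj2, ← g2n]
          obtain ⟨b1, b2⟩ := ip2 (k2 + 1 - (i + 1)) (k2 + 1) (by omega) le_rfl
          refine ⟨b1, ?_⟩
          rw [b2]
          omega
        · refine ⟨fun he => (hDE _ hj2).2.2.1 (he ▸ hin), fun h =>
            absurd h.symm ((hDE _ hj2).2.2.2 _ hin), fun h => by omega⟩
    · intro i hi
      by_cases hik : i = k2
      · subst hik
        rw [Nat.sub_self, g20]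
        exact x2.ne
      · intro he
        exact hqR (he ▸ g2i _ (by omega) (by omega))
    · intro j hj
      rcases hg1 j hj with ⟨_, hj2⟩ | ⟨_, hj2⟩
      · rw [hj2]
        exact y2.ne
      · exact (hD1 _ hj2).ne
    · rcases hg1 0 (by omega) with ⟨_, hj2⟩ | ⟨_, hj2⟩
      · rw [hj2]
        exact y2
      · exact hD1 _ hj2
    · rw [g1n]
      exact y2
    · rw [Nat.sub_self, g20]
      exact x2
  have hTq : ∀ x ∈ D ∪ N, G.Adj (f 1) x := by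
    rintro x (hx | hx)
    · exact (hDE x hx).2.1
    · exact ((hNm x).1 hx).2.1
  -- a simplicial vertex of `D ∪ N` in `D`
  obtain ⟨z, hz, hzz⟩ : ∃ z ∈ D, ∀ x ∈ D ∪ N, ∀ y ∈ D ∪ N, x ≠ y → G.Adj z x → G.Adj z y →
      G.Adj x y := by
    by_cases hcase : ∃ n ∈ N, ∃ y ∈ D ∪ N, y ≠ n ∧ ¬ G.Adj n y
    · obtain ⟨n, hn, y, hy, hyn, hny⟩ := hcase
      obtain ⟨z, hz, hzn, hnz, hzz⟩ := simpl hG _ (D ∪ N) le_rfl hTq n (Or.inr hn) y hy hyn hny
      refine ⟨z, ?_, hzz⟩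
      rcases hz with hz | hz
      · exact hz
      · exact absurd (hclq n hn z hz hzn.symm) hnz
    · push Not at hcase
      by_cases hc : ∃ x ∈ D ∪ N, ∃ y ∈ D ∪ N, y ≠ x ∧ ¬ G.Adj x y
      · obtain ⟨x, hx, y, hy, hyx, hxy⟩ := hc
        obtain ⟨z, hz, hzx, hxz, hzz⟩ := simpl hG _ (D ∪ N) le_rfl hTq x hx y hy hyx hxy
        refine ⟨z, ?_, hzz⟩
        rcases hz with hz | hz
        · exact hz
        · exact absurd (hcase z hz x hx hzx.symm).symm hxz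
      · push Not at hc
        exact ⟨f 0, d3, fun x hx y hy hxy _ _ => hc x hx y hy hxy.symm⟩
  obtain ⟨z1, z2, z3, z4⟩ := hDE z hz
  have hnb : ∀ x ∈ S, G.Adj (f 1) x → G.Adj z x → x ∈ D ∪ N := by
    intro x hx hqx hzx
    by_cases hxE : x ∈ E
    · exact Or.inl (d4 z hz x hxE hzx)
    · exact Or.inr ((hNm x).2 ⟨hx, hqx, hxE, z, hz, hzx.symm⟩)
  -- the path with `z` in place of its first vertex
  have hf' : IP G n (fun i => if i = 0 then z else f i) := by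
    intro i j hij hj
    have hj0 : j ≠ 0 := by omega
    by_cases hi0 : i = 0
    · simp only [hi0, hj0, if_true, if_false]
      by_cases hj1 : j = 1
      · subst hj1
        exact ⟨z2.ne.symm, fun _ => rfl, fun _ => z2.symm⟩
      · have hjR : f j ∈ R := (hRm _).2 ⟨j, by omega, hj, rfl⟩
        exact ⟨fun he => z3 (he ▸ hjR), fun h => absurd h (z4 _ hjR), fun h => by omega⟩
    · simp only [hi0, hj0, if_false]
      exact hf i j hij hj
  have hfS' : ∀ i ≤ n, (fun i => if i = 0 then z else f i) i ∈ S := by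
    intro i hi
    by_cases hi0 : i = 0
    · simp only [hi0, if_true]
      exact z1
    · simp only [hi0, if_false]
      exact hfS i hi
  have hend := endp hG hf' hfS' hmax
  simp only [if_true, one_ne_zero, if_false] at hend
  refine ⟨z, z1, hf', {x | x ∈ S ∧ G.Adj z x ∧ (x = f 1 ∨ G.Adj (f 1) x)}, fun x hx => hx.1,
    fun x hx => hx.2.1, ?_, ?_⟩
  · rintro x ⟨x1, x2, x3⟩ y ⟨y1, y2, y3⟩ hxy
    rcases x3 with x3 | x3
    · rcases y3 with y3 | y3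
      · exact absurd (x3.trans y3.symm) hxy
      · rw [x3]
        exact y3
    · rcases y3 with y3 | y3
      · rw [y3]
        exact x3.symm
      · exact hzz x (hnb x x1 x3 x2) y (hnb y y1 y3 y2) hxy x2 y2
  · intro x hx y hy h1 h2 h3
    exact ⟨hx, h1, hend x hx y hy h1 h2 h3⟩

/-- an induced path with two edges at least can be taken longest -/
lemma longest2 [Finite V] {G : SimpleGraph V} {a b c : V} (hab : G.Adj a b) (hbc : G.Adj b c)
    (hac : a ≠ c) (hac' : ¬ G.Adj a c) : ∃ (n : ℕ) (f : ℕ → V), 2 ≤ n ∧ IP G n f ∧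
      ∀ g, IP G (n + 1) g → False := by
  by_contra hc
  push Not at hc
  have key : ∀ n, ∃ f, IP G (n + 2) f := by
    intro n
    induction n with
    | zero =>
      refine ⟨fun i => if i = 0 then a else if i = 1 then b else c, ?_⟩
      intro i j hij hj
      have : (i = 0 ∧ j = 1) ∨ (i = 0 ∧ j = 2) ∨ (i = 1 ∧ j = 2) := by omega
      rcases this with ⟨rfl, rfl⟩ | ⟨rfl, rfl⟩ | ⟨rfl, rfl⟩
      · simpa using ⟨hab.ne, hab⟩
      · simpa using ⟨hac, hac'⟩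
      · simpa using ⟨hbc.ne, hbc⟩
    | succ n ih =>
      obtain ⟨f, h1⟩ := ih
      obtain ⟨g, h3, _⟩ := hc (n + 2) f (by omega) h1
      exact ⟨g, h3⟩
  obtain ⟨f, h1⟩ := key (Nat.card V)
  have := lt_card h1
  omega

/-- THEOREM G, Dirac form -/
lemma dirac [Finite V] {G : SimpleGraph V} (hG : ¬ Whl.HasWheel G) {a b : V} (hab : a ≠ b)
    (hab' : ¬ G.Adj a b) : ∃ z z' : V, z ≠ z' ∧ ¬ G.Adj z z' ∧
      (∃ K : Set V, (∀ x ∈ K, G.Adj z x) ∧ (∀ x ∈ K, ∀ y ∈ K, x ≠ y → G.Adj x y) ∧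
        ∀ x y, G.Adj z x → G.Adj z y → G.Adj x y → x ∈ K) ∧
      (∃ K : Set V, (∀ x ∈ K, G.Adj z' x) ∧ (∀ x ∈ K, ∀ y ∈ K, x ≠ y → G.Adj x y) ∧
        ∀ x y, G.Adj z' x → G.Adj z' y → G.Adj x y → x ∈ K) := by
  classical
  by_cases hP : ∃ u v w : V, G.Adj u v ∧ G.Adj v w ∧ u ≠ w ∧ ¬ G.Adj u w
  · obtain ⟨u, v, w, h1, h2, h3, h4⟩ := hP
    obtain ⟨n, f, hn, hf, hmax⟩ := longest2 h1 h2 h3 h4
    obtain ⟨z, _, hf1, K, _, k1, k2, k3⟩ := special1 hG (S := Set.univ) (by omega) hf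
      (fun _ _ => trivial) (fun g hg _ => hmax g hg)
    have hf2 := rev hf1
    obtain ⟨z', _, hf3, K', _, k1', k2', k3'⟩ := special1 hG (S := Set.univ) (by omega) hf2
      (fun _ _ => trivial) (fun g hg _ => hmax g hg)
    obtain ⟨c1, c2⟩ := hf3 0 n (by omega) le_rfl
    have hn0 : n ≠ 0 := by omega
    simp only [if_true, hn0, if_false, Nat.sub_self] at c1 c2
    refine ⟨z, z', c1.symm, fun h => ?_, ⟨K, k1, k2, fun x y => k3 x trivial y trivial⟩,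
      ⟨K', k1', k2', fun x y => k3' x trivial y trivial⟩⟩
    have := c2.1 h.symm
    omega
  · push Not at hP
    have hcl : ∀ c : V, ∃ K : Set V, (∀ x ∈ K, G.Adj c x) ∧
        (∀ x ∈ K, ∀ y ∈ K, x ≠ y → G.Adj x y) ∧
        ∀ x y, G.Adj c x → G.Adj c y → G.Adj x y → x ∈ K := by
      intro c
      refine ⟨{x | G.Adj c x}, fun x hx => hx, fun x hx y hy hxy => ?_, fun x y hx _ _ => hx⟩
      exact hP x c y (G.adj_symm hx) hy hxy
    exact ⟨a, b, hab, hab', hcl a, hcl b⟩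

end Wsp
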