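import Pool.Agent.Wsp.End

/-!
# A vertex whose neighbourhood is a clique and a stable set (MP_e2a513_co)
-/

set_option autoImplicit false

namespace Wsp

open Wdf Wtb

variable {V : Type}

/-- cliques have at most `w` vertices -/
lemma clq_le [Finite V] {G : SimpleGraph V} {w : ℕ} (hw : G.CliqueFree (w + 1)) (K : Set V)
    (hK : ∀ x ∈ K, ∀ y ∈ K, x ≠ y → G.Adj x y) : K.ncard ≤ w := by
  classical
  by_contra hlt
  push Not at hlt
  have hfin : K.Finite := Set.toFinite K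
  rw [Set.ncard_eq_toFinset_card K hfin] at hlt
  obtain ⟨t, ht, htc⟩ := Finset.exists_subset_card_eq (show w + 1 ≤ hfin.toFinset.card by omega)
  refine hw t ⟨?_, htc⟩
  intro x hx y hy hxy
  exact hK x (hfin.mem_toFinset.1 (ht hx)) y (hfin.mem_toFinset.1 (ht hy)) hxy

/-- a clique which misses `z`, all whose vertices are adjacent to `z`, has less than `w` vertices -/
lemma clq_lt [Finite V] {G : SimpleGraph V} {w : ℕ} (hw : G.CliqueFree (w + 1)) {K : Set V} {z : V}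
    (hK : ∀ x ∈ K, ∀ y ∈ K, x ≠ y → G.Adj x y) (hz : ∀ x ∈ K, G.Adj z x) : K.ncard + 1 ≤ w := by
  have hzK : z ∉ K := fun h => G.loopless.irrefl _ (hz z h)
  rw [← Set.ncard_insert_of_notMem hzK (Set.toFinite K)]
  refine clq_le hw _ ?_
  rintro x (rfl | hx) y (rfl | hy) hxy
  · exact absurd rfl hxy
  · exact hz y hy
  · exact (hz x hx).symm
  · exact hK x hx y hy hxy

/-- the hole formed by two induced paths joined at both ends -/
lemma rim2 {G : SimpleGraph V} {n k : ℕ} {f g : ℕ → V} (hn : 1 ≤ n) (hk : 1 ≤ k)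
    (hf : IP G n f) (hg : IP G k g)
    (hx : ∀ i ≤ n, ∀ j ≤ k, f i ≠ g j ∧
      (G.Adj (f i) (g j) ↔ ((i = n ∧ j = 0) ∨ (i = 0 ∧ j = k)))) :
    ∃ c : SimpleGraph.cycleGraph (n + k + 2) ↪g G,
      ∀ i : Fin (n + k + 2), c i = if (i : ℕ) ≤ n then f i else g (i - (n + 1)) := by
  refine mkCyc (G := G) (N := n + k + 2) (by omega)
    (fun i => if i ≤ n then f i else g (i - (n + 1))) ?_
  intro i j hij hj
  by_cases hjn : j ≤ n
  · have hin : i ≤ n := by omega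
    simp only [hin, hjn, if_true]
    obtain ⟨a1, a2⟩ := hf i j hij hjn
    refine ⟨a1, ?_⟩
    rw [a2]
    omega
  · by_cases hin : i ≤ n
    · simp only [hin, hjn, if_true, if_false]
      obtain ⟨a1, a2⟩ := hx i hin (j - (n + 1)) (by omega)
      refine ⟨a1, ?_⟩
      rw [a2]
      omega
    · simp only [hin, hjn, if_false]
      obtain ⟨a1, a2⟩ := hg (i - (n + 1)) (j - (n + 1)) (by omega) (by omega)
      refine ⟨a1, ?_⟩
      rw [a2]
      omega

/-- a wheel from such a rim: the hub sees two vertices of the lower path and a third vertex -/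
lemma rimw {G : SimpleGraph V} {n k : ℕ} {f g : ℕ → V} (hn : 1 ≤ n) (hk : 1 ≤ k)
    (hf : IP G n f) (hg : IP G k g)
    (hx : ∀ i ≤ n, ∀ j ≤ k, f i ≠ g j ∧
      (G.Adj (f i) (g j) ↔ ((i = n ∧ j = 0) ∨ (i = 0 ∧ j = k))))
    {z : V} (hzf : ∀ i ≤ n, z ≠ f i) (hzg : ∀ j ≤ k, z ≠ g j) {j1 j2 : ℕ} (h1 : j1 ≤ k)
    (h2 : j2 ≤ k) (h12 : j1 ≠ j2) (hz1 : G.Adj z (g j1)) (hz2 : G.Adj z (g j2))
    (h3 : (∃ i ≤ n, G.Adj z (f i)) ∨ ∃ j3 ≤ k, j3 ≠ j1 ∧ j3 ≠ j2 ∧ G.Adj z (g j3)) :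
    Whl.HasWheel G := by
  obtain ⟨c, hc⟩ := rim2 hn hk hf hg hx
  have hcg : ∀ j (hj : j ≤ k), c ⟨n + 1 + j, by omega⟩ = g j := by
    intro j hj
    rw [hc]
    have e1 : ¬ (n + 1 + j ≤ n) := by omega
    simp only [e1, if_false]
    congr 1
    omega
  have hcf : ∀ i (hi : i ≤ n), c ⟨i, by omega⟩ = f i := by
    intro i hi
    rw [hc]
    simp only [hi, if_true]
  have hzc : z ∉ Set.range c := by
    rintro ⟨i, hi⟩
    rw [hc] at hi
    by_cases hin : (i : ℕ) ≤ n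
    · simp only [hin, if_true] at hi
      exact hzf i hin hi.symm
    · simp only [hin, if_false] at hi
      exact hzg (i - (n + 1)) (by have := i.2; omega) hi.symm
  rcases h3 with ⟨i, hi, hzi⟩ | ⟨j3, h3, h31, h32, hz3⟩
  · refine ⟨n + k + 2, by omega, c, z, hzc, ⟨n + 1 + j1, by omega⟩, ⟨n + 1 + j2, by omega⟩,
      ⟨i, by omega⟩, ?_, ?_, ?_, ?_, ?_, ?_⟩
    · intro he
      have := congrArg Fin.val he
      simp only at this
      omega
    · intro he
      have := congrArg Fin.val he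
      simp only at this
      omega
    · intro he
      have := congrArg Fin.val he
      simp only at this
      omega
    · rw [hcg j1 h1]
      exact hz1
    · rw [hcg j2 h2]
      exact hz2
    · rw [hcf i hi]
      exact hzi
  · refine ⟨n + k + 2, by omega, c, z, hzc, ⟨n + 1 + j1, by omega⟩, ⟨n + 1 + j2, by omega⟩,
      ⟨n + 1 + j3, by omega⟩, ?_, ?_, ?_, ?_, ?_, ?_⟩
    · intro he
      have := congrArg Fin.val he
      simp only at this
      omega
    · intro he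
      have := congrArg Fin.val he
      simp only at this
      omega
    · intro he
      have := congrArg Fin.val he
      simp only at this
      omega
    · rw [hcg j1 h1]
      exact hz1
    · rw [hcg j2 h2]
      exact hz2
    · rw [hcg j3 h3]
      exact hz3

/-- no hole in the neighbourhood of `v`: two common neighbours of `a` and of a connected set `D`
without neighbours of `a` are adjacent -/
lemma chord [Finite V] {G : SimpleGraph V} (hG : ¬ Whl.HasWheel G) {v : V} {S D : Set V}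
    (hS : ∀ x ∈ S, G.Adj v x) (hD : D ⊆ S) (hc : Conn G D) {a x y : V} (ha : a ∈ S) (hx : x ∈ S)
    (hy : y ∈ S) (hxy : x ≠ y) (haD : a ∉ D) (haD' : ∀ u ∈ D, ¬ G.Adj a u) (hax : G.Adj a x)
    (hay : G.Adj a y) (hxu : ∃ u ∈ D, G.Adj x u) (hyu : ∃ u ∈ D, G.Adj y u) : G.Adj x y := by
  by_contra hno
  have hxD : x ∉ D := fun h => haD' x h hax
  have hyD : y ∉ D := fun h => haD' y h hay
  obtain ⟨n, f, hn, hf, f0, fn, fi⟩ := upper' hc hxD hyD hxy hxu hyu
  have hn2 : 2 ≤ n := by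
    by_contra hlt
    have : n = 1 := by omega
    subst this
    have := (hf 0 1 (by omega) le_rfl).2.2 rfl
    rw [f0, fn] at this
    exact hno this
  refine hG (hf.wheel (x := a) (z := v) hn2 ?_ (hS a ha) ?_ (i := 0) (j := n) (by omega) le_rfl
    (by omega) (by rw [f0]; exact hS x hx) (by rw [fn]; exact hS y hy))
  · intro i hi
    by_cases h0 : i = 0
    · subst h0
      rw [f0]
      exact ⟨hax.ne.symm, fun _ => Or.inl rfl, fun _ => hax.symm⟩
    · by_cases h1 : i = n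
      · subst h1
        rw [fn]
        exact ⟨hay.ne.symm, fun _ => Or.inr rfl, fun _ => hay.symm⟩
      · have hm := fi i (by omega) (by omega)
        refine ⟨fun he => haD (he ▸ hm), fun he => absurd he.symm (haD' _ hm), ?_⟩
        rintro (h | h)
        · exact absurd h h0
        · exact absurd h h1
  · intro i hi he
    have hadj : ∀ u, G.Adj v u → v ≠ u := fun u hu => hu.ne
    by_cases h0 : i = 0
    · subst h0
      rw [f0] at he
      exact hadj _ (hS x hx) he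
    · by_cases h1 : i = n
      · subst h1
        rw [fn] at he
        exact hadj _ (hS y hy) he
      · exact hadj _ (hS _ (hD (fi i (by omega) (by omega)))) he

/-- a simplicial vertex which is not adjacent to `a`, in a set of neighbours of `v` -/
lemma simpl [Finite V] {G : SimpleGraph V} (hG : ¬ Whl.HasWheel G) {v : V} (k : ℕ) :
    ∀ S : Set V, S.ncard ≤ k → (∀ x ∈ S, G.Adj v x) → ∀ a ∈ S, ∀ b ∈ S, b ≠ a → ¬ G.Adj a b →
      ∃ z ∈ S, z ≠ a ∧ ¬ G.Adj a z ∧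
        ∀ x ∈ S, ∀ y ∈ S, x ≠ y → G.Adj z x → G.Adj z y → G.Adj x y := by
  induction k with
  | zero =>
    intro S hS _ a ha
    have h0 : S = ∅ := by
      rw [← Set.ncard_eq_zero (Set.toFinite S)]
      omega
    rw [h0] at ha
    exact ha.elim
  | succ k ih =>
    intro S hSk hS a ha b hb hba hab
    obtain ⟨D, h1, h2, h3, h4⟩ := comp_mem (G := G) (S := {x | x ∈ S ∧ x ≠ a ∧ ¬ G.Adj a x})
      (d := b) ⟨hb, hba, hab⟩
    have hDS : D ⊆ S := fun x hx => (h1 hx).1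
    have haD : a ∉ D := fun h => (h1 h).2.1 rfl
    have haD' : ∀ u ∈ D, ¬ G.Adj a u := fun u hu => (h1 hu).2.2
    obtain ⟨N, hN⟩ : ∃ N : Set V, N = {x | x ∈ S ∧ G.Adj a x ∧ ∃ u ∈ D, G.Adj x u} := ⟨_, rfl⟩
    have hNm : ∀ x, x ∈ N ↔ x ∈ S ∧ G.Adj a x ∧ ∃ u ∈ D, G.Adj x u := by
      intro x
      rw [hN]
      rfl
    have hclq : ∀ x ∈ N, ∀ y ∈ N, x ≠ y → G.Adj x y := by
      intro x hx y hy hxy
      obtain ⟨x1, x2, x3⟩ := (hNm x).1 hx
      obtain ⟨y1, y2, y3⟩ := (hNm y).1 hy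
      exact chord hG hS hDS h2 ha x1 y1 hxy haD haD' x2 y2 x3 y3
    have hTS : D ∪ N ⊆ S := by
      rintro x (hx | hx)
      · exact hDS hx
      · exact ((hNm x).1 hx).1
    have haT : a ∉ D ∪ N := by
      rintro (h | h)
      · exact haD h
      · exact G.loopless.irrefl _ ((hNm a).1 h).2.1
    have hlt : (D ∪ N).ncard < S.ncard := by
      refine Set.ncard_lt_ncard ?_ (Set.toFinite S)
      refine lt_of_le_of_ne hTS ?_
      intro he
      exact haT (he ▸ ha)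
    -- neighbours of a vertex of `D`
    have hnb : ∀ z ∈ D, ∀ x ∈ S, G.Adj z x → x ∈ D ∪ N := by
      intro z hz x hx hzx
      by_cases hax : G.Adj a x
      · exact Or.inr ((hNm x).2 ⟨hx, hax, z, hz, hzx.symm⟩)
      · refine Or.inl (h4 z hz x ⟨hx, ?_, hax⟩ hzx)
        intro he
        rw [he] at hzx
        exact haD' z hz hzx.symm
    -- a simplicial vertex of `D ∪ N` in `D`
    have hfin : (∃ z ∈ D, ∀ x ∈ D ∪ N, ∀ y ∈ D ∪ N, x ≠ y → G.Adj z x → G.Adj z y →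
        G.Adj x y) → ∃ z ∈ S, z ≠ a ∧ ¬ G.Adj a z ∧
        ∀ x ∈ S, ∀ y ∈ S, x ≠ y → G.Adj z x → G.Adj z y → G.Adj x y := by
      rintro ⟨z, hz, hzz⟩
      exact ⟨z, hDS hz, fun he => haD (he ▸ hz), haD' z hz, fun x hx y hy hxy hzx hzy =>
        hzz x (hnb z hz x hx hzx) y (hnb z hz y hy hzy) hxy hzx hzy⟩
    apply hfin
    have ih' := ih (D ∪ N) (by omega) (fun x hx => hS x (hTS hx))
    by_cases hcase : ∃ n ∈ N, ∃ y ∈ D ∪ N, y ≠ n ∧ ¬ G.Adj n y
    · obtain ⟨n, hn, y, hy, hyn, hny⟩ := hcase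
      obtain ⟨z, hz, hzn, hnz, hzz⟩ := ih' n (Or.inr hn) y hy hyn hny
      refine ⟨z, ?_, hzz⟩
      rcases hz with hz | hz
      · exact hz
      · exact absurd (hclq n hn z hz hzn.symm) hnz
    · push Not at hcase
      by_cases hc : ∃ x ∈ D ∪ N, ∃ y ∈ D ∪ N, y ≠ x ∧ ¬ G.Adj x y
      · obtain ⟨x, hx, y, hy, hyx, hxy⟩ := hc
        obtain ⟨z, hz, hzx, hxz, hzz⟩ := ih' x hx y hy hyx hxy
        refine ⟨z, ?_, hzz⟩
        rcases hz with hz | hz
        · exact hz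
        · exact absurd (hcase z hz x hx hzx.symm).symm hxz
      · push Not at hc
        exact ⟨b, h3, fun x hx y hy hxy _ _ => hc x hx y hy hxy.symm⟩

lemma tail {G : SimpleGraph V} {n : ℕ} {f : ℕ → V} (h : IP G (n + 1) f) :
    IP G n (fun i => f (i + 1)) := by
  intro i j hij hj
  obtain ⟨a1, a2⟩ := h (i + 1) (j + 1) (by omega) (by omega)
  refine ⟨a1, ?_⟩
  rw [a2]
  omega

lemma rev {G : SimpleGraph V} {n : ℕ} {f : ℕ → V} (h : IP G n f) :
    IP G n (fun i => f (n - i)) := by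
  intro i j hij hj
  obtain ⟨a1, a2⟩ := h (n - j) (n - i) (by omega) (by omega)
  refine ⟨a1.symm, ?_⟩
  rw [G.adj_comm, a2]
  omega

/-- the end `f 2, .., f n` of an induced path is connected -/
lemma conn_path {G : SimpleGraph V} {n : ℕ} {f : ℕ → V} (h : IP G n f) :
    Conn G {x | ∃ i, 2 ≤ i ∧ i ≤ n ∧ x = f i} := by
  intro D hD hne hcl
  obtain ⟨x0, hx0⟩ := hne
  obtain ⟨i0, h1, h2, rfl⟩ := hD hx0
  have up : ∀ t, i0 + t ≤ n → f (i0 + t) ∈ D := by
    intro t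
    induction t with
    | zero => exact fun _ => hx0
    | succ t ih =>
      intro ht
      exact hcl _ (ih (by omega)) _ ⟨i0 + (t + 1), by omega, ht, rfl⟩
        ((h (i0 + t) (i0 + (t + 1)) (by omega) ht).2.2 (by omega))
  have dn : ∀ t, t + 2 ≤ i0 → f (i0 - t) ∈ D := by
    intro t
    induction t with
    | zero => exact fun _ => hx0
    | succ t ih =>
      intro ht
      exact hcl _ (ih (by omega)) _ ⟨i0 - (t + 1), by omega, by omega, rfl⟩
        ((h (i0 - (t + 1)) (i0 - t) (by omega) (by omega)).2.2 (by omega)).symm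
  refine Set.Subset.antisymm hD ?_
  rintro x ⟨i, h3, h4, rfl⟩
  rcases le_total i0 i with h5 | h5
  · have := up (i - i0) (by omega)
    rwa [show i0 + (i - i0) = i by omega] at this
  · have := dn (i0 - i) (by omega)
    rwa [show i0 - (i0 - i) = i by omega] at this

/-- THEOREM G: a vertex `z` of `S` and a clique `K` of neighbours of `z` which contains the other
vertices of every triangle at `z` -/
lemma special [Finite V] {G : SimpleGraph V} (hG : ¬ Whl.HasWheel G) {S : Set V} {a b : V}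
    (ha : a ∈ S) (hb : b ∈ S) (hab : G.Adj a b) : ∃ z ∈ S, ∃ K ⊆ S, (∀ x ∈ K, G.Adj z x) ∧
      (∀ x ∈ K, ∀ y ∈ K, x ≠ y → G.Adj x y) ∧
      ∀ x ∈ S, ∀ y ∈ S, G.Adj z x → G.Adj z y → G.Adj x y → x ∈ K := by
  classical
  obtain ⟨n, f, hn, hf, hfS, hmax⟩ := longest ha hb hab
  obtain ⟨R, hR⟩ : ∃ R : Set V, R = {x | ∃ i, 2 ≤ i ∧ i ≤ n ∧ x = f i} := ⟨_, rfl⟩
  have hRc : Conn G R := hR ▸ conn_path hf
  have hRm : ∀ x, x ∈ R ↔ ∃ i, 2 ≤ i ∧ i ≤ n ∧ x = f i := by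
    intro x
    rw [hR]
    rfl
  have hq0 : G.Adj (f 0) (f 1) := (hf 0 1 (by omega) hn).2.2 rfl
  have hqR : f 1 ∉ R := by
    intro h
    obtain ⟨i, h1, h2, h3⟩ := (hRm _).1 h
    exact (hf 1 i (by omega) h2).1 h3
  obtain ⟨E, hE⟩ : ∃ E : Set V, E = {x | x ∈ S ∧ G.Adj (f 1) x ∧ x ∉ R ∧
      ∀ u ∈ R, ¬ G.Adj x u} := ⟨_, rfl⟩
  have hEm : ∀ x, x ∈ E ↔ x ∈ S ∧ G.Adj (f 1) x ∧ x ∉ R ∧ ∀ u ∈ R, ¬ G.Adj x u := by
    intro x
    rw [hE]
    rfl
  have h0E : f 0 ∈ E := by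
    refine (hEm _).2 ⟨hfS 0 (by omega), hq0.symm, ?_, ?_⟩
    · intro h
      obtain ⟨i, h1, h2, h3⟩ := (hRm _).1 h
      exact (hf 0 i (by omega) h2).1 h3
    · intro u hu hadj
      obtain ⟨i, h1, h2, h3⟩ := (hRm _).1 hu
      rw [h3] at hadj
      have := (hf 0 i (by omega) h2).2.1 hadj
      omega
  obtain ⟨D, d1, d2, d3, d4⟩ := comp_mem (G := G) (S := E) (d := f 0) h0E
  have hDE : ∀ x ∈ D, x ∈ S ∧ G.Adj (f 1) x ∧ x ∉ R ∧ ∀ u ∈ R, ¬ G.Adj x u :=
    fun x hx => (hEm x).1 (d1 hx)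
  obtain ⟨N, hN⟩ : ∃ N : Set V, N = {x | x ∈ S ∧ G.Adj (f 1) x ∧ x ∉ E ∧ ∃ u ∈ D, G.Adj x u} :=
    ⟨_, rfl⟩
  have hNm : ∀ x, x ∈ N ↔ x ∈ S ∧ G.Adj (f 1) x ∧ x ∉ E ∧ ∃ u ∈ D, G.Adj x u := by
    intro x
    rw [hN]
    rfl
  have hNR : ∀ x ∈ N, x ∉ R ∧ ∃ u ∈ R, G.Adj x u := by
    intro x hx
    obtain ⟨x1, x2, x3, u, hu, hxu⟩ := (hNm x).1 hx
    have hxR : x ∉ R := fun h => (hDE u hu).2.2.2 x h hxu.symm
    refine ⟨hxR, ?_⟩
    by_contra hc
    push Not at hc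
    exact x3 ((hEm x).2 ⟨x1, x2, hxR, hc⟩)
  have hND : ∀ x ∈ N, x ∉ D := fun x hx h => ((hNm x).1 hx).2.2.1 (d1 h)
  have hclq : ∀ x ∈ N, ∀ y ∈ N, x ≠ y → G.Adj x y := by
    intro x hx y hy hxy
    by_contra hno
    obtain ⟨x1, x2, x3, x4⟩ := (hNm x).1 hx
    obtain ⟨y1, y2, y3, y4⟩ := (hNm y).1 hy
    obtain ⟨x5, x6⟩ := hNR x hx
    obtain ⟨y5, y6⟩ := hNR y hy
    obtain ⟨n1, g1, m1, ip1, g10, g1n, g1i⟩ := upper' d2 (hND x hx) (hND y hy) hxy x4 y4
    obtain ⟨n2, g2, m2, ip2, g20, g2n, g2i⟩ := upper' hRc x5 y5 hxy x6 y6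
    have two : ∀ {m : ℕ} {g : ℕ → V}, 1 ≤ m → IP G m g → g 0 = x → g m = y → 2 ≤ m := by
      intro m g hm ip e0 en
      by_contra hlt
      have : m = 1 := by omega
      subst this
      have := (ip 0 1 (by omega) le_rfl).2.2 rfl
      rw [e0, en] at this
      exact hno this
    have t1 := two m1 ip1 g10 g1n
    have t2 := two m2 ip2 g20 g2n
    obtain ⟨k1, rfl⟩ : ∃ k1, n1 = k1 + 1 := ⟨n1 - 1, by omega⟩
    obtain ⟨k2, rfl⟩ : ∃ k2, n2 = k2 + 1 := ⟨n2 - 1, by omega⟩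
    have hg1 : ∀ j, j ≤ k1 → (j + 1 = k1 + 1 ∧ g1 (j + 1) = y) ∨
        (j + 1 < k1 + 1 ∧ g1 (j + 1) ∈ D) := by
      intro j hj
      by_cases h : j + 1 = k1 + 1
      · exact Or.inl ⟨h, by rw [h]; exact g1n⟩
      · exact Or.inr ⟨by omega, g1i _ (by omega) (by omega)⟩
    have hD1 : ∀ u ∈ D, G.Adj (f 1) u := fun u hu => (hDE u hu).2.1
    refine hG (rimw (n := k2) (k := k1) (f := fun i => g2 (k2 + 1 - (i + 1)))
      (g := fun i => g1 (i + 1)) (by omega) (by omega) (tail (rev ip2)) (tail ip1) ?_ (z := f 1)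
      ?_ ?_ (j1 := 0) (j2 := k1) (by omega) le_rfl (by omega) ?_ ?_ (Or.inl ⟨k2, le_rfl, ?_⟩))
    · intro i hi j hj
      by_cases hik : i = k2
      · subst hik
        rw [Nat.sub_self, g20, ← g10]
        obtain ⟨b1, b2⟩ := ip1 0 (j + 1) (by omega) (by omega)
        refine ⟨b1, ?_⟩
        rw [b2]
        omega
      · have hin : g2 (k2 + 1 - (i + 1)) ∈ R := g2i _ (by omega) (by omega)
        rcases hg1 j hj with ⟨hj1, hj2⟩ | ⟨hj1, hj2⟩
        · rw [hj2, ← g2n]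
          obtain ⟨b1, b2⟩ := ip2 (k2 + 1 - (i + 1)) (k2 + 1) (by omega) le_rfl
          refine ⟨b1, ?_⟩
          rw [b2]
          omega
        · refine ⟨fun he => (hDE _ hj2).2.2.1 (he ▸ hin), fun h =>
            absurd h.symm ((hDE _ hj2).2.2.2 _ hin), fun h => by omega⟩
    · intro i hi
      by_cases hik : i = k2
      · subst hik
        rw [Nat.sub_self, g20]
        exact x2.ne
      · intro he
        exact hqR (he ▸ g2i _ (by omega) (by omega))
    · intro j hj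
      rcases hg1 j hj with ⟨_, hj2⟩ | ⟨_, hj2⟩
      · rw [hj2]
        exact y2.ne
      · exact (hD1 _ hj2).ne
    · rcases hg1 0 (by omega) with ⟨_, hj2⟩ | ⟨_, hj2⟩
      · rw [hj2]
        exact y2
      · exact hD1 _ hj2
    · rw [g1n]
      exact y2
    · rw [Nat.sub_self, g20]
      exact x2
  have hTq : ∀ x ∈ D ∪ N, G.Adj (f 1) x := by
    rintro x (hx | hx)
    · exact (hDE x hx).2.1
    · exact ((hNm x).1 hx).2.1
  -- a simplicial vertex of `D ∪ N` in `D`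
  obtain ⟨z, hz, hzz⟩ : ∃ z ∈ D, ∀ x ∈ D ∪ N, ∀ y ∈ D ∪ N, x ≠ y → G.Adj z x → G.Adj z y →
      G.Adj x y := by
    by_cases hcase : ∃ n ∈ N, ∃ y ∈ D ∪ N, y ≠ n ∧ ¬ G.Adj n y
    · obtain ⟨n, hn, y, hy, hyn, hny⟩ := hcase
      obtain ⟨z, hz, hzn, hnz, hzz⟩ := simpl hG _ (D ∪ N) le_rfl hTq n (Or.inr hn) y hy hyn hny
      refine ⟨z, ?_, hzz⟩
      rcases hz with hz | hz
      · exact hz
      · exact absurd (hclq n hn z hz hzn.symm) hnz
    · push Not at hcase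
      by_cases hc : ∃ x ∈ D ∪ N, ∃ y ∈ D ∪ N, y ≠ x ∧ ¬ G.Adj x y
      · obtain ⟨x, hx, y, hy, hyx, hxy⟩ := hc
        obtain ⟨z, hz, hzx, hxz, hzz⟩ := simpl hG _ (D ∪ N) le_rfl hTq x hx y hy hyx hxy
        refine ⟨z, ?_, hzz⟩
        rcases hz with hz | hz
        · exact hz
        · exact absurd (hcase z hz x hx hzx.symm).symm hxz
      · push Not at hc
        exact ⟨f 0, d3, fun x hx y hy hxy _ _ => hc x hx y hy hxy.symm⟩
  obtain ⟨z1, z2, z3, z4⟩ := hDE z hz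
  have hnb : ∀ x ∈ S, G.Adj (f 1) x → G.Adj z x → x ∈ D ∪ N := by
    intro x hx hqx hzx
    by_cases hxE : x ∈ E
    · exact Or.inl (d4 z hz x hxE hzx)
    · exact Or.inr ((hNm x).2 ⟨hx, hqx, hxE, z, hz, hzx.symm⟩)
  -- the path with `z` in place of its first vertex
  have hf' : IP G n (fun i => if i = 0 then z else f i) := by
    intro i j hij hj
    have hj0 : j ≠ 0 := by omega
    by_cases hi0 : i = 0
    · simp only [hi0, hj0, if_true, if_false]
      by_cases hj1 : j = 1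
      · subst hj1
        exact ⟨z2.ne.symm, fun _ => rfl, fun _ => z2.symm⟩
      · have hjR : f j ∈ R := (hRm _).2 ⟨j, by omega, hj, rfl⟩
        exact ⟨fun he => z3 (he ▸ hjR), fun h => absurd h (z4 _ hjR), fun h => by omega⟩
    · simp only [hi0, hj0, if_false]
      exact hf i j hij hj
  have hfS' : ∀ i ≤ n, (fun i => if i = 0 then z else f i) i ∈ S := by
    intro i hi
    by_cases hi0 : i = 0
    · simp only [hi0, if_true]
      exact z1
    · simp only [hi0, if_false]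
      exact hfS i hi
  have hend := endp hG hf' hfS' hmax
  simp only [if_true, one_ne_zero, if_false] at hend
  refine ⟨z, z1, {x | x ∈ S ∧ G.Adj z x ∧ (x = f 1 ∨ G.Adj (f 1) x)}, fun x hx => hx.1,
    fun x hx => hx.2.1, ?_, ?_⟩
  · rintro x ⟨x1, x2, x3⟩ y ⟨y1, y2, y3⟩ hxy
    rcases x3 with x3 | x3
    · rcases y3 with y3 | y3
      · exact absurd (x3.trans y3.symm) hxy
      · rw [x3]
        exact y3
    · rcases y3 with y3 | y3
      · rw [y3]
        exact x3.symm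
      · exact hzz x (hnb x x1 x3 x2) y (hnb y y1 y3 y2) hxy x2 y2
  · intro x hx y hy h1 h2 h3
    exact ⟨hx, h1, hend x hx y hy h1 h2 h3⟩

end Wsp
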